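import Pool.Agent.Helper10.CR.Goals2

/-!
# Project CR, goal LR2: two more lemmas for local rings without cases W and I
-/

universe u

namespace Pool.Agent.Helper59.CR

open Pool.Agent.Helper10.CR IsLocalRing

variable {R : Type u} [CommRing R] [IsLocalRing R]

theorem mem_mI {a b t : R} : t ∈ maximalIdeal R * Ideal.span {a, b} ↔
    ∃ u ∈ maximalIdeal R, ∃ v ∈ maximalIdeal R, t = u * a + v * b := by
  rw [Ideal.span_insert, Ideal.mul_sup, Submodule.mem_sup]
  constructor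
  · rintro ⟨y, hy, z, hz, rfl⟩
    obtain ⟨u, hu, rfl⟩ := Ideal.mem_mul_span_singleton.1 hy
    obtain ⟨v, hv, rfl⟩ := Ideal.mem_mul_span_singleton.1 hz
    exact ⟨u, hu, v, hv, rfl⟩
  · rintro ⟨u, hu, v, hv, rfl⟩
    exact ⟨u * a, Ideal.mem_mul_span_singleton.2 ⟨u, hu, rfl⟩, v * b,
      Ideal.mem_mul_span_singleton.2 ⟨v, hv, rfl⟩, rfl⟩

theorem unit_of_not_mem {t : R} (h : t ∉ maximalIdeal R) : IsUnit t := by
  by_contra h1
  exact h ((mem_maximalIdeal t).2 h1)

theorem one_not_mem : (1 : R) ∉ maximalIdeal R := fun h =>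
  (mem_maximalIdeal (1 : R)).1 h isUnit_one

omit [IsLocalRing R] in
theorem dvd_of_unit {s t a b : R} (hs : IsUnit s) (h : s * a = t * b) : b ∣ a := by
  obtain ⟨s, rfl⟩ := hs
  refine ⟨(↑s⁻¹ : R) * t, ?_⟩
  calc a = (↑s⁻¹ : R) * (↑s * a) := by rw [← mul_assoc, s.inv_mul, one_mul]
    _ = _ := by rw [h]; ring

theorem indep {a b : R} (h1 : ¬ a ∣ b) (h2 : ¬ b ∣ a) {u v : R}
    (h : u * a + v * b ∈ maximalIdeal R * Ideal.span {a, b}) :
    u ∈ maximalIdeal R ∧ v ∈ maximalIdeal R := by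
  obtain ⟨u', hu', v', hv', e⟩ := mem_mI.1 h
  constructor
  · by_contra hu
    have h3 : IsUnit (u - u') := unit_of_not_mem fun h4 => hu (by
      have := add_mem h4 hu'
      rwa [sub_add_cancel] at this)
    exact h2 (dvd_of_unit (t := v' - v) h3 (by linear_combination e))
  · by_contra hv
    have h3 : IsUnit (v - v') := unit_of_not_mem fun h4 => hv (by
      have := add_mem h4 hv'
      rwa [sub_add_cancel] at this)
    exact h1 (dvd_of_unit (t := u' - u) h3 (by linear_combination e))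

theorem pick_aux {a b u v : R} (h1 : ¬ a ∣ b) (h2 : ¬ b ∣ a) (hu : IsUnit u) :
    Ideal.span {u * a + v * b, b} = Ideal.span {a, b} ∧ ¬ (u * a + v * b) ∣ b ∧
      ¬ b ∣ (u * a + v * b) := by
  refine ⟨?_, ?_, ?_⟩
  · apply le_antisymm
    · rw [Ideal.span_le]
      rintro x (rfl | rfl)
      · exact Ideal.mem_span_pair.2 ⟨u, v, rfl⟩
      · exact Ideal.subset_span (by simp)
    · rw [Ideal.span_le]
      rintro x (rfl | rfl)
      · obtain ⟨u, rfl⟩ := hu
        refine Ideal.mem_span_pair.2 ⟨(↑u⁻¹ : R), -((↑u⁻¹ : R) * v), ?_⟩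
        have := u.inv_mul
        linear_combination x * this
      · exact Ideal.subset_span (by simp)
  · rintro ⟨t, ht⟩
    have h3 : (t * u) * a + (t * v - 1) * b ∈ maximalIdeal R * Ideal.span {a, b} := by
      have : (t * u) * a + (t * v - 1) * b = 0 := by linear_combination -ht
      rw [this]
      exact zero_mem _
    obtain ⟨h4, h5⟩ := indep h1 h2 h3
    have h6 : t ∈ maximalIdeal R := (Ideal.mul_unit_mem_iff_mem _ hu).1 h4
    have h7 : t * v ∈ maximalIdeal R := Ideal.mul_mem_right _ _ h6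
    have h8 : (1 : R) ∈ maximalIdeal R := by
      have := sub_mem h7 h5
      rwa [sub_sub_cancel] at this
    exact one_not_mem h8
  · rintro ⟨t, ht⟩
    exact h2 (dvd_of_unit (t := t - v) hu (by linear_combination ht))

theorem pick {a b c : R} (h1 : ¬ a ∣ b) (h2 : ¬ b ∣ a) (hc : c ∈ Ideal.span {a, b})
    (hc' : c ∉ maximalIdeal R * Ideal.span {a, b}) :
    ∃ d, Ideal.span {c, d} = Ideal.span {a, b} ∧ ¬ c ∣ d ∧ ¬ d ∣ c := by
  obtain ⟨u, v, rfl⟩ := Ideal.mem_span_pair.1 hc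
  by_cases hu : u ∈ maximalIdeal R
  · have hv : v ∉ maximalIdeal R := fun hv => hc' (mem_mI.2 ⟨u, hu, v, hv, rfl⟩)
    have h3 := pick_aux (u := v) (v := u) h2 h1 (unit_of_not_mem hv)
    refine ⟨a, ?_, ?_, ?_⟩
    · rw [add_comm, h3.1, Ideal.span_pair_comm]
    · rw [add_comm]; exact h3.2.1
    · rw [add_comm]; exact h3.2.2
  · exact ⟨b, pick_aux h1 h2 (unit_of_not_mem hu)⟩

/-- The lemma (Z). -/
theorem lemZ (hW : ∀ a b c : R, a ∈ Ideal.span {b, c} ∨ b ∈ Ideal.span {a, c} ∨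
      c ∈ Ideal.span {a, b})
    (hA : ∀ x y : R, ¬ x ∣ y → ¬ y ∣ x → ∀ t ∈ maximalIdeal R, ∃ t' ∈ maximalIdeal R,
      t * x = t' * y)
    (hB : ∀ a b : R, ¬ a ∣ b → ¬ b ∣ a → ∀ x ∈ maximalIdeal R, x ∉ Ideal.span {a, b} →
      ∃ r ∈ maximalIdeal R, a = r * x)
    {a b x x' ρ : R} (h1 : ¬ a ∣ b) (h2 : ¬ b ∣ a) (_ : ¬ x ∣ x') (h4 : ¬ x' ∣ x)
    (hx' : x' ∈ maximalIdeal R) (hρ : ρ ∈ maximalIdeal R)
    (hc : ρ * x' ∈ Ideal.span {a, b}) (hc' : ρ * x' ∉ maximalIdeal R * Ideal.span {a, b}) :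
    ρ * x ∉ maximalIdeal R * Ideal.span {a, b} := by
  intro h
  obtain ⟨d, hI, h5, h6⟩ := pick h1 h2 hc hc'
  rw [← hI] at h hc'
  have hρI : ρ ∉ Ideal.span {ρ * x', d} := fun h7 =>
    hc' (by rw [mul_comm ρ x'] at h7 ⊢; exact Ideal.mul_mem_mul hx' h7)
  obtain ⟨b₁, hb₁, rfl⟩ := hB d (ρ * x') h6 h5 ρ hρ (by rwa [Ideal.span_pair_comm])
  rcases hW x' x b₁ with h7 | h7 | h7
  · obtain ⟨u, v, e⟩ := Ideal.mem_span_pair.1 h7
    have h8 : 1 * (ρ * x') + -v * (b₁ * ρ) ∈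
        maximalIdeal R * Ideal.span {ρ * x', b₁ * ρ} := by
      have : 1 * (ρ * x') + -v * (b₁ * ρ) = u * (ρ * x) := by linear_combination -ρ * e
      rw [this]
      exact Ideal.mul_mem_left _ _ h
    exact one_not_mem (indep h5 h6 h8).1
  · obtain ⟨u, v, e⟩ := Ideal.mem_span_pair.1 h7
    have h8 : u * (ρ * x') + v * (b₁ * ρ) ∈
        maximalIdeal R * Ideal.span {ρ * x', b₁ * ρ} := by
      have : u * (ρ * x') + v * (b₁ * ρ) = ρ * x := by linear_combination ρ * e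
      rw [this]
      exact h
    obtain ⟨hu, hv⟩ := indep h5 h6 h8
    obtain ⟨v', -, e'⟩ := hA b₁ x' (by rintro ⟨t, rfl⟩; exact h6 ⟨t, by ring⟩)
      (by rintro ⟨t, rfl⟩; exact h5 ⟨t, by ring⟩) v hv
    exact h4 ⟨u + v', by linear_combination -e + e'⟩
  · obtain ⟨u, v, e⟩ := Ideal.mem_span_pair.1 h7
    have h8 : -u * (ρ * x') + 1 * (b₁ * ρ) ∈
        maximalIdeal R * Ideal.span {ρ * x', b₁ * ρ} := by
      have : -u * (ρ * x') + 1 * (b₁ * ρ) = v * (ρ * x) := by linear_combination -ρ * e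
      rw [this]
      exact Ideal.mul_mem_left _ _ h
    exact one_not_mem (indep h5 h6 h8).2

theorem goalLR2 (hLR1 : GoalLR1.{u}) : GoalLR2.{u} := by
  intro R _ _ hnW hnI a b r r₂ x x' h1 h2 hr hr₂ hx hx' ha hb hb'
  obtain ⟨hW, hA, hB, -⟩ := hLR1 R hnW hnI
  have hxx' : ¬ x ∣ x' := by
    rintro ⟨t, rfl⟩
    exact h1 ⟨t, by rw [hb', ha]; ring⟩
  have hx'x : ¬ x' ∣ x := by
    rintro ⟨t, rfl⟩
    exact h2 ⟨t, by rw [ha, hb']; ring⟩
  have haI : a ∈ Ideal.span {a, b} := Ideal.subset_span (by simp)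
  have ham : a ∉ maximalIdeal R * Ideal.span {a, b} := fun h =>
    one_not_mem (indep (u := 1) (v := 0) h1 h2 (by simpa using h)).1
  have hxI : x ∉ Ideal.span {a, b} := fun h => ham (by
    have h3 : r * x ∈ maximalIdeal R * Ideal.span {a, b} := Ideal.mul_mem_mul hr h
    rwa [← ha] at h3)
  refine ⟨fun u v h => indep h1 h2 h, ?_, ?_⟩
  · intro ζ hζ
    have hζm : ζ ∈ maximalIdeal R := by
      by_contra h3
      have h4 := (Ideal.unit_mul_mem_iff_mem _ (unit_of_not_mem h3)).1 hζ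
      exact hxI (Ideal.mul_le_right h4)
    by_contra hy
    by_cases hyI : ζ * x' ∈ Ideal.span {a, b}
    · exact lemZ hW hA hB h1 h2 hxx' hx'x hx' hζm hyI hy hζ
    · obtain ⟨t, ht, e⟩ := hB a b h1 h2 (ζ * x') (Ideal.mul_mem_left _ _ hx') hyI
      have e1 : t * ζ * x' = a := by rw [e]; ring
      exact lemZ hW hA hB h1 h2 hxx' hx'x hx' (Ideal.mul_mem_right ζ _ ht)
        (by rwa [e1]) (by rwa [e1])
        (by rw [mul_assoc]; exact Ideal.mul_mem_left _ _ hζ)
  · intro α β h l hl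
    have hρ : r₂ - l * r ∈ maximalIdeal R := sub_mem hr₂ (Ideal.mul_mem_left _ _ hr)
    have h3 : ¬ (x' - (β - l) * x) ∣ x := by
      rintro ⟨t, ht⟩
      by_cases h4 : IsUnit (1 + t * (β - l))
      · exact hx'x (dvd_of_unit (t := t) h4 (by linear_combination ht))
      · have h5 : 1 + t * (β - l) ∈ maximalIdeal R := (mem_maximalIdeal _).2 h4
        have h6 : IsUnit t := by
          refine unit_of_not_mem fun h7 => ?_
          have h8 : (1 : R) ∈ maximalIdeal R := by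
            have := sub_mem h5 (Ideal.mul_mem_right (β - l) _ h7)
            rwa [add_sub_cancel_right] at this
          exact one_not_mem h8
        exact hxx' (dvd_of_unit (t := 1 + t * (β - l)) h6 (by linear_combination -ht))
    have h4 : ¬ x ∣ (x' - (β - l) * x) := by
      rintro ⟨t, ht⟩
      exact hxx' ⟨t + (β - l), by linear_combination ht⟩
    have e1 : (r₂ - l * r) * x = -l * a + 1 * b := by
      linear_combination -hb + l * ha
    refine lemZ hW hA hB (x := x' - (β - l) * x) (x' := x) h1 h2 h3 h4 hx hρ ?_ ?_ ?_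
    · rw [e1]
      exact Ideal.mem_span_pair.2 ⟨-l, 1, rfl⟩
    · rw [e1]
      intro h5
      exact one_not_mem (indep h1 h2 h5).2
    · have e2 : (r₂ - l * r) * (x' - (β - l) * x) =
          (r₂ * x' - (α * a + β * b)) - (l ^ 2 - (α + β * l)) * a := by
        linear_combination (β - l) * hb + l * hb' - l * (β - l) * ha
      rw [e2]
      exact sub_mem h (Ideal.mul_mem_mul hl haI)

end Pool.Agent.Helper59.CR
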